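import Pool.Agent.W872.MX.StmB

/-!
# Project MX: interpolation between a red and a blue matching (part INT)
-/

set_option autoImplicit false

namespace Pool.Agent.W503.MX

open Finset W872.MX

/-- the positions: a free position, `m` pairs and `k` further positions -/
abbrev Ps (m k : ℕ) : Type := Option ((Fin m × Bool) ⊕ Fin k)

section
open Classical

variable {m k : ℕ} {W : Type} (R : SimpleGraph W) {T : Finset W}

/-- the red pairs -/
noncomputable def reds (σ : Ps m k ≃ T) : Finset (Fin m) :=
  univ.filter fun a => R.Adj (σ (some (Sum.inl (a, false))) : W) (σ (some (Sum.inl (a, true))) : W)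

/-- the number of red pairs -/
noncomputable def val (σ : Ps m k ≃ T) : ℕ := (reds R σ).card

theorem star (σ : Ps m k ≃ T) (x : Ps m k) :
    val R ((Equiv.swap none x).trans σ) ≤ val R σ + 1 := by
  rcases x with _ | ⟨a₀, b₀⟩ | c
  · have : (Equiv.swap (none : Ps m k) none).trans σ = σ := by
      rw [Equiv.swap_self]
      rfl
    rw [this]
    exact Nat.le_succ _
  · have h : reds R ((Equiv.swap none (some (Sum.inl (a₀, b₀)))).trans σ) ⊆
        insert a₀ (reds R σ) := by
      intro a ha
      by_cases h0 : a = a₀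
      · rw [h0]
        exact mem_insert_self _ _
      · apply mem_insert_of_mem
        have hne : ∀ b, (Equiv.swap (none : Ps m k) (some (Sum.inl (a₀, b₀))))
            (some (Sum.inl (a, b))) = some (Sum.inl (a, b)) := by
          intro b
          apply Equiv.swap_apply_of_ne_of_ne
          · exact Option.some_ne_none _
          · intro h1
            apply h0
            simp only [Option.some.injEq, Sum.inl.injEq, Prod.mk.injEq] at h1
            exact h1.1
        unfold reds at ha ⊢
        rw [mem_filter] at ha ⊢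
        refine ⟨ha.1, ?_⟩
        have h2 := ha.2
        simp only [Equiv.trans_apply] at h2
        rw [hne, hne] at h2
        exact h2
    exact (card_le_card h).trans (card_insert_le _ _)
  · have h : reds R ((Equiv.swap none (some (Sum.inr c))).trans σ) ⊆ reds R σ := by
      intro a ha
      have hne : ∀ b, (Equiv.swap (none : Ps m k) (some (Sum.inr c)))
          (some (Sum.inl (a, b))) = some (Sum.inl (a, b)) := by
        intro b
        apply Equiv.swap_apply_of_ne_of_ne
        · exact Option.some_ne_none _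
        · intro h1
          simp only [Option.some.injEq, reduceCtorEq] at h1
      unfold reds at ha ⊢
      rw [mem_filter] at ha ⊢
      refine ⟨ha.1, ?_⟩
      have h2 := ha.2
      simp only [Equiv.trans_apply] at h2
      rw [hne, hne] at h2
      exact h2
    exact (card_le_card h).trans (Nat.le_succ _)

theorem conn (i : ℕ) (hi : ∀ σ : Ps m k ≃ T, val R σ ≠ i) (σ₀ : Ps m k ≃ T)
    (h0 : val R σ₀ < i) (π : Equiv.Perm (Ps m k)) : val R (Equiv.trans π σ₀) < i := by
  have st : ∀ (f : Equiv.Perm (Ps m k)) (x : Ps m k), val R (Equiv.trans f σ₀) < i →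
      val R (Equiv.trans (f * Equiv.swap none x) σ₀) < i := by
    intro f x hf
    have h1 : Equiv.trans (f * Equiv.swap none x) σ₀ =
        (Equiv.swap none x).trans (Equiv.trans f σ₀) := rfl
    rw [h1]
    have h2 := star R (Equiv.trans f σ₀) x
    have h3 := hi ((Equiv.swap none x).trans (Equiv.trans f σ₀))
    omega
  refine Equiv.Perm.swap_induction_on' π h0 ?_
  intro f x y hxy hf
  rcases x with _ | x
  · exact st f y hf
  rcases y with _ | y
  · rw [Equiv.swap_comm]
    exact st f _ hf
  have h1 : Equiv.swap (some x) (some y) =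
      Equiv.swap none (some x) * Equiv.swap none (some y) * Equiv.swap none (some x) := by
    have h2 := Equiv.swap_mul_swap_mul_swap (x := some y) (y := (none : Ps m k)) (z := some x)
      (Option.some_ne_none _) (Ne.symm hxy)
    rw [← h2, Equiv.swap_comm (some y) none]
  rw [h1, ← mul_assoc, ← mul_assoc]
  exact st _ _ (st _ _ (st _ _ hf))

theorem ext (hc : 2 * m + 1 + k = T.card) (g : Fin m × Bool ↪ W) (hg : ∀ x, g x ∈ T) :
    ∃ σ : Ps m k ≃ T, ∀ x, (σ (some (Sum.inl x)) : W) = g x := by
  obtain ⟨w, hw⟩ : T.Nonempty := card_pos.1 (by omega)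
  obtain ⟨f, hf⟩ : ∃ f : Ps m k → W, f = fun x => x.elim w (fun y => Sum.elim g (fun _ => w) y) :=
    ⟨_, rfl⟩
  have hf1 : ∀ x, f (some (Sum.inl x)) = g x := by
    intro x
    rw [hf]
    rfl
  obtain ⟨s, hs⟩ : ∃ s : Finset (Ps m k),
      s = univ.image (fun x : Fin m × Bool => (some (Sum.inl x) : Ps m k)) := ⟨_, rfl⟩
  have hcard : Fintype.card (Ps m k) = T.card := by
    rw [Fintype.card_option, Fintype.card_sum, Fintype.card_prod, Fintype.card_fin,
      Fintype.card_fin, Fintype.card_bool]
    omega
  obtain ⟨σ, hσ⟩ := Finset.exists_equiv_extend_of_card_eq (α := Ps m k) (t := T) hcard (s := s)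
    (f := f) (by
      intro y hy
      obtain ⟨x, hx, rfl⟩ := mem_image.1 hy
      rw [hs] at hx
      obtain ⟨z, -, rfl⟩ := mem_image.1 hx
      rw [hf1]
      exact hg z) (by
      intro x hx y hy hxy
      rw [hs, coe_image] at hx hy
      obtain ⟨x', -, rfl⟩ := hx
      obtain ⟨y', -, rfl⟩ := hy
      rw [hf1, hf1] at hxy
      rw [g.injective hxy])
  refine ⟨σ, fun x => ?_⟩
  rw [hσ _ (by rw [hs]; exact mem_image_of_mem _ (mem_univ x)), hf1]

theorem fromVal (σ : Ps m k ≃ T) (i j : ℕ) (hij : i + j = m) (h : val R σ = i) :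
    HasRB R T i j := by
  have h1 : Fintype.card {a // a ∈ reds R σ} = i := by
    rw [Fintype.card_coe]
    exact h
  have h2 : Fintype.card {a // a ∉ reds R σ} = j := by
    have := Fintype.card_subtype_compl (fun a => a ∈ reds R σ)
    rw [this, h1, Fintype.card_fin]
    omega
  have eA : Fin i ≃ {a // a ∈ reds R σ} := (Fintype.equivFinOfCardEq h1).symm
  have eB : Fin j ≃ {a // a ∉ reds R σ} := (Fintype.equivFinOfCardEq h2).symm
  set g : Fin i ⊕ Fin j → Fin m := fun x => Sum.elim (fun a => (eA a).1) (fun b => (eB b).1) x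
    with hg
  have ginj : Function.Injective g := by
    intro x y hxy
    rcases x with x | x <;> rcases y with y | y
    · exact congrArg Sum.inl (eA.injective (Subtype.ext hxy))
    · have h3 : (eA x).1 = (eB y).1 := hxy
      exact absurd (h3 ▸ (eA x).2) (eB y).2
    · have h3 : (eB x).1 = (eA y).1 := hxy
      exact absurd (h3 ▸ (eA y).2) (eB x).2
    · exact congrArg Sum.inr (eB.injective (Subtype.ext hxy))
  refine ⟨⟨fun x => (σ (some (Sum.inl (g x.1, x.2))) : W), ?_⟩, fun x => ?_, ?_, ?_⟩
  · intro x y hxy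
    have h3 := σ.injective (Subtype.ext hxy)
    simp only [Option.some.injEq, Sum.inl.injEq, Prod.mk.injEq] at h3
    exact Prod.ext (ginj h3.1) h3.2
  · exact (σ (some (Sum.inl (g x.1, x.2)))).2
  · intro a
    have h3 := (eA a).2
    unfold reds at h3
    exact (mem_filter.1 h3).2
  · intro b
    have h3 := (eB b).2
    unfold reds at h3
    rw [mem_filter, not_and] at h3
    rw [SimpleGraph.compl_adj]
    refine ⟨?_, h3 (mem_univ _)⟩
    intro h4
    have h5 := σ.injective (Subtype.ext h4)
    simp only [Option.some.injEq, Sum.inl.injEq, Prod.mk.injEq] at h5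
    exact Bool.noConfusion h5.2

end

open Classical in
theorem main : W872.MX.PartINT := by
  intro W _ _ R T m hm hred hblue i j hij
  obtain ⟨k, hk⟩ : ∃ k, 2 * m + 1 + k = T.card := ⟨T.card - (2 * m + 1), by omega⟩
  by_contra hcon
  have hi : ∀ σ : Ps m k ≃ T, val R σ ≠ i := fun σ h => hcon (fromVal R σ i j hij h)
  obtain ⟨f, hfT, hf, -⟩ := hred
  obtain ⟨f', hfT', -, hf'⟩ := hblue
  obtain ⟨σ₁, h₁⟩ := ext hk ⟨fun x => f (Sum.inl x.1, x.2), by
    intro x y hxy
    have h3 := f.injective hxy
    simp only [Prod.mk.injEq, Sum.inl.injEq] at h3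
    exact Prod.ext h3.1 h3.2⟩ (fun x => hfT _)
  obtain ⟨σ₀, h₀⟩ := ext hk ⟨fun x => f' (Sum.inr x.1, x.2), by
    intro x y hxy
    have h3 := f'.injective hxy
    simp only [Prod.mk.injEq, Sum.inr.injEq] at h3
    exact Prod.ext h3.1 h3.2⟩ (fun x => hfT' _)
  have v1 : val R σ₁ = m := by
    have h : reds R σ₁ = univ := by
      unfold reds
      rw [filter_eq_self]
      intro a _
      rw [h₁, h₁]
      exact hf a
    unfold val
    rw [h, card_univ, Fintype.card_fin]
  have v0 : val R σ₀ = 0 := by
    have h : reds R σ₀ = ∅ := by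
      unfold reds
      rw [filter_eq_empty_iff]
      intro a _
      rw [h₀, h₀]
      exact ((SimpleGraph.compl_adj _ _ _).1 (hf' a)).2
    unfold val
    rw [h, card_empty]
  have h3 := conn R i hi σ₀ (by have := hi σ₀; omega) (σ₁.trans σ₀.symm)
  have h4 : Equiv.trans (σ₁.trans σ₀.symm) σ₀ = σ₁ := by
    ext x
    simp
  have h5 : val R (Equiv.trans (σ₁.trans σ₀.symm) σ₀) = val R σ₁ := congrArg (val R) h4
  rw [h5, v1] at h3
  omega

end Pool.Agent.W503.MX
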